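import Pool.Agent.helper74.PL.Loc

namespace Pool.Agent.helper74.PL

open Finset

def cube (d : ℕ) : Finset (ℕ × ℕ × ℕ) := range d ×ˢ range d ×ˢ range d

theorem count_cube (f : ℕ → ℕ) (d K : ℕ) (hf : ∀ a, f a < K)
    (R : ℕ → ℕ → ℕ → Prop) [∀ i j l, Decidable (R i j l)] :
    ((cube d).filter (fun t => R (f t.1) (f t.2.1) (f t.2.2))).card =
      ∑ u ∈ cube K, if R u.1 u.2.1 u.2.2 then
        ((range d).filter (fun a => f a = u.1)).card *
        (((range d).filter (fun a => f a = u.2.1)).card *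
         ((range d).filter (fun a => f a = u.2.2)).card) else 0 := by
  classical
  rw [Finset.card_eq_sum_card_fiberwise (f := fun t => (f t.1, f t.2.1, f t.2.2)) (t := cube K)]
  · apply Finset.sum_congr rfl
    rintro ⟨i, j, l⟩ hu
    split_ifs with hR
    · rw [← Finset.card_product, ← Finset.card_product]
      congr 1
      ext ⟨a, b, c⟩
      simp only [cube, Finset.mem_filter, Finset.mem_product, Prod.mk.injEq]
      constructor
      · rintro ⟨⟨⟨ha, hb, hc⟩, _⟩, h1, h2, h3⟩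
        exact ⟨⟨ha, h1⟩, ⟨hb, h2⟩, ⟨hc, h3⟩⟩
      · rintro ⟨⟨ha, h1⟩, ⟨hb, h2⟩, ⟨hc, h3⟩⟩
        refine ⟨⟨⟨ha, hb, hc⟩, ?_⟩, h1, h2, h3⟩
        rw [h1, h2, h3]
        exact hR
    · rw [Finset.card_eq_zero, Finset.filter_eq_empty_iff]
      rintro ⟨a, b, c⟩ ht heq
      rw [Finset.mem_filter] at ht
      simp only [Prod.mk.injEq] at heq
      apply hR
      rw [← heq.1, ← heq.2.1, ← heq.2.2]
      exact ht.2
  · rintro ⟨a, b, c⟩ _
    simp only [cube, Finset.coe_product, Set.mem_prod, Finset.coe_range, Set.mem_Iio]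
    exact ⟨hf _, hf _, hf _⟩

theorem crt (d e : ℕ) (hde : Nat.Coprime d e) (hd : 0 < d) (he : 0 < e)
    (P Q : ℕ × ℕ × ℕ → Prop) [DecidablePred P] [DecidablePred Q]
    (hP : ∀ t : ℕ × ℕ × ℕ, P t → P (t.1 % d, t.2.1 % d, t.2.2 % d))
    (hQ : ∀ t : ℕ × ℕ × ℕ, Q t → Q (t.1 % e, t.2.1 % e, t.2.2 % e)) :
    ((cube (d * e)).filter (fun t => P t ∧ Q t)).card ≤
      ((cube d).filter P).card * ((cube e).filter Q).card := by
  rw [← Finset.card_product]
  apply Finset.card_le_card_of_injOn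
    (fun t => ((t.1 % d, t.2.1 % d, t.2.2 % d), (t.1 % e, t.2.1 % e, t.2.2 % e)))
  · rintro t ht
    rw [Finset.mem_coe, Finset.mem_filter] at ht
    rw [Finset.mem_coe, Finset.mem_product, Finset.mem_filter, Finset.mem_filter]
    refine ⟨⟨?_, hP t ht.2.1⟩, ⟨?_, hQ t ht.2.2⟩⟩
    · simp only [cube, Finset.mem_product, Finset.mem_range]
      exact ⟨Nat.mod_lt _ hd, Nat.mod_lt _ hd, Nat.mod_lt _ hd⟩
    · simp only [cube, Finset.mem_product, Finset.mem_range]
      exact ⟨Nat.mod_lt _ he, Nat.mod_lt _ he, Nat.mod_lt _ he⟩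
  · rintro ⟨a, b, c⟩ ht ⟨a', b', c'⟩ ht' heq
    rw [Finset.mem_coe, Finset.mem_filter] at ht ht'
    simp only [cube, Finset.mem_product, Finset.mem_range] at ht ht'
    simp only [Prod.mk.injEq] at heq
    obtain ⟨⟨h1, h2, h3⟩, h4, h5, h6⟩ := heq
    have aux : ∀ u v : ℕ, u < d * e → v < d * e → u % d = v % d → u % e = v % e → u = v := by
      intro u v hu hv h h'
      exact Nat.ModEq.eq_of_lt_of_lt
        ((Nat.modEq_and_modEq_iff_modEq_mul hde).mp ⟨h, h'⟩) hu hv
    simp only [Prod.mk.injEq]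
    exact ⟨aux _ _ ht.1.1 ht'.1.1 h1 h4, aux _ _ ht.1.2.1 ht'.1.2.1 h2 h5,
      aux _ _ ht.1.2.2 ht'.1.2.2 h3 h6⟩

theorem block (M N : ℕ) (hM : 0 < M) (P : ℕ × ℕ × ℕ → Prop) [DecidablePred P]
    (hP : ∀ t : ℕ × ℕ × ℕ, P t → P (t.1 % M, t.2.1 % M, t.2.2 % M)) :
    ((Icc 1 N ×ˢ Icc 1 N ×ˢ Icc 1 N).filter P).card ≤
      (N / M + 1) ^ 3 * ((cube M).filter P).card := by
  have hc : (cube (N / M + 1)).card = (N / M + 1) ^ 3 := by
    simp only [cube, Finset.card_product, Finset.card_range]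
    ring
  rw [← hc, ← Finset.card_product]
  apply Finset.card_le_card_of_injOn
    (fun t => ((t.1 / M, t.2.1 / M, t.2.2 / M), (t.1 % M, t.2.1 % M, t.2.2 % M)))
  · rintro ⟨a, b, c⟩ ht
    rw [Finset.mem_coe, Finset.mem_filter] at ht
    rw [Finset.mem_coe, Finset.mem_product, Finset.mem_filter]
    have ht1 := ht.1
    simp only [Finset.mem_product, Finset.mem_Icc] at ht1
    refine ⟨?_, ?_, hP _ ht.2⟩
    · simp only [cube, Finset.mem_product, Finset.mem_range]
      exact ⟨Nat.lt_succ_of_le (Nat.div_le_div_right ht1.1.2),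
        Nat.lt_succ_of_le (Nat.div_le_div_right ht1.2.1.2),
        Nat.lt_succ_of_le (Nat.div_le_div_right ht1.2.2.2)⟩
    · simp only [cube, Finset.mem_product, Finset.mem_range]
      exact ⟨Nat.mod_lt _ hM, Nat.mod_lt _ hM, Nat.mod_lt _ hM⟩
  · rintro ⟨a, b, c⟩ _ ⟨a', b', c'⟩ _ heq
    simp only [Prod.mk.injEq] at heq
    obtain ⟨⟨h1, h2, h3⟩, h4, h5, h6⟩ := heq
    have aux : ∀ u v : ℕ, u / M = v / M → u % M = v % M → u = v := by
      intro u v h h'
      rw [← Nat.div_add_mod u M, ← Nat.div_add_mod v M, h, h']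
    simp only [Prod.mk.injEq]
    exact ⟨aux _ _ h1 h4, aux _ _ h2 h5, aux _ _ h3 h6⟩

/-- Not blocked at `p`, as far as the valuations cut off at `k` show. -/
def Free (p k : ℕ) (t : ℕ × ℕ × ℕ) : Prop := ¬ Blk (val p k t.1) (val p k t.2.1) (val p k t.2.2)

instance (p k : ℕ) : DecidablePred (Free p k) := by
  intro t; unfold Free; infer_instance

theorem free_mod (p k M : ℕ) (hM : p ^ k ∣ M) (t : ℕ × ℕ × ℕ) (h : Free p k t) :
    Free p k (t.1 % M, t.2.1 % M, t.2.2 % M) := by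
  have aux : ∀ a, val p k (a % M) = val p k a := by
    intro a
    rw [← val_mod p k (a % M), Nat.mod_mod_of_dvd a hM, val_mod]
  unfold Free at h ⊢
  simp only [aux]
  exact h

theorem card_free (p k : ℕ) : ((cube (p ^ k)).filter (Free p k)).card =
    ∑ u ∈ cube (k + 1), if ¬ Blk u.1 u.2.1 u.2.2 then
        ((range (p ^ k)).filter (fun a => val p k a = u.1)).card *
        (((range (p ^ k)).filter (fun a => val p k a = u.2.1)).card *
         ((range (p ^ k)).filter (fun a => val p k a = u.2.2)).card) else 0 := by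
  have := count_cube (val p k) (p ^ k) (k + 1) (fun a => Nat.lt_succ_of_le (val_le p k a))
    (fun i j l => ¬ Blk i j l)
  exact this

theorem c2 : ((cube (2 ^ 4)).filter (Free 2 4)).card = 3219 := by
  rw [card_free]; decide +kernel

theorem c3 : ((cube (3 ^ 3)).filter (Free 3 3)).card = 17497 := by
  rw [card_free]; decide +kernel

theorem c5 : ((cube (5 ^ 2)).filter (Free 5 2)).card = 14961 := by
  rw [card_free]; decide +kernel

theorem c7 : ((cube (7 ^ 2)).filter (Free 7 2)).card = 115081 := by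
  rw [card_free]; decide +kernel

theorem c11 : ((cube (11 ^ 2)).filter (Free 11 2)).card = 1756041 := by
  rw [card_free]; decide +kernel

theorem c13 : ((cube (13 ^ 2)).filter (Free 13 2)).card = 4796689 := by
  rw [card_free]; decide +kernel

theorem c17 : ((cube (17 ^ 2)).filter (Free 17 2)).card = 24050241 := by
  rw [card_free]; decide +kernel

theorem c19 : ((cube (19 ^ 2)).filter (Free 19 2)).card = 46910089 := by
  rw [card_free]; decide +kernel

theorem c23 : ((cube (23 ^ 2)).filter (Free 23 2)).card = 147745929 := by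
  rw [card_free]; decide +kernel

end Pool.Agent.helper74.PL
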