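import Pool.Agent.helper74.PL.Cnt

namespace Pool.Agent.helper74.PL

open Finset

/-- combining one more prime -/
theorem step (d U : ℕ) (P : ℕ × ℕ × ℕ → Prop) [DecidablePred P] (hd : 0 < d)
    (hP : ∀ M t, d ∣ M → P t → P (t.1 % M, t.2.1 % M, t.2.2 % M))
    (hU : ((cube d).filter P).card ≤ U)
    (p k u : ℕ) (hp : 0 < p) (hco : Nat.Coprime d (p ^ k))
    (hu : ((cube (p ^ k)).filter (Free p k)).card = u) :
    (∀ M t, d * p ^ k ∣ M → (P t ∧ Free p k t) →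
      (P (t.1 % M, t.2.1 % M, t.2.2 % M) ∧ Free p k (t.1 % M, t.2.1 % M, t.2.2 % M))) ∧
    ((cube (d * p ^ k)).filter (fun t => P t ∧ Free p k t)).card ≤ U * u := by
  constructor
  · intro M t hM h
    exact ⟨hP M t ((Dvd.intro _ rfl).trans hM) h.1,
      free_mod p k M ((Dvd.intro_left _ rfl).trans hM) t h.2⟩
  · calc _ ≤ ((cube d).filter P).card * ((cube (p ^ k)).filter (Free p k)).card :=
          crt d (p ^ k) hco hd (pow_pos hp k) P (Free p k)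
            (fun t h => hP d t (dvd_refl d) h) (fun t h => free_mod p k _ (dvd_refl _) t h)
      _ ≤ U * u := by
          rw [hu]
          exact Nat.mul_le_mul_right _ hU

/-- blocked at none of the primes up to 23 -/
def AllFree (t : ℕ × ℕ × ℕ) : Prop :=
  ((((((((Free 2 4 t ∧ Free 3 3 t) ∧ Free 5 2 t) ∧ Free 7 2 t) ∧ Free 11 2 t) ∧ Free 13 2 t) ∧
    Free 17 2 t) ∧ Free 19 2 t) ∧ Free 23 2 t)

instance : DecidablePred AllFree := by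
  intro t; unfold AllFree; infer_instance

theorem all_free :
    (∀ M t, 2 ^ 4 * 3 ^ 3 * 5 ^ 2 * 7 ^ 2 * 11 ^ 2 * 13 ^ 2 * 17 ^ 2 * 19 ^ 2 * 23 ^ 2 ∣ M →
      AllFree t → AllFree (t.1 % M, t.2.1 % M, t.2.2 % M)) ∧
    ((cube (2 ^ 4 * 3 ^ 3 * 5 ^ 2 * 7 ^ 2 * 11 ^ 2 * 13 ^ 2 * 17 ^ 2 * 19 ^ 2 * 23 ^ 2)).filter
      AllFree).card ≤ 3219 * 17497 * 14961 * 115081 * 1756041 * 4796689 * 24050241 * 46910089 *
      147745929 := by
  have h0 := step (2 ^ 4) 3219 (Free 2 4) (by norm_num) (fun M t hM h => free_mod 2 4 M hM t h)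
    (le_of_eq c2) 3 3 17497 (by norm_num) (by norm_num) c3
  have h1 := step (2 ^ 4 * 3 ^ 3) _ _ (by norm_num) h0.1 h0.2 5 2 _ (by norm_num)
    (by norm_num) c5
  have h2 := step (2 ^ 4 * 3 ^ 3 * 5 ^ 2) _ _ (by norm_num) h1.1 h1.2 7 2 _ (by norm_num)
    (by norm_num) c7
  have h3 := step (2 ^ 4 * 3 ^ 3 * 5 ^ 2 * 7 ^ 2) _ _ (by norm_num) h2.1 h2.2 11 2 _ (by norm_num)
    (by norm_num) c11
  have h4 := step (2 ^ 4 * 3 ^ 3 * 5 ^ 2 * 7 ^ 2 * 11 ^ 2) _ _ (by norm_num) h3.1 h3.2 13 2 _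
    (by norm_num) (by norm_num) c13
  have h5 := step (2 ^ 4 * 3 ^ 3 * 5 ^ 2 * 7 ^ 2 * 11 ^ 2 * 13 ^ 2) _ _ (by norm_num) h4.1 h4.2
    17 2 _ (by norm_num) (by norm_num) c17
  have h6 := step (2 ^ 4 * 3 ^ 3 * 5 ^ 2 * 7 ^ 2 * 11 ^ 2 * 13 ^ 2 * 17 ^ 2) _ _ (by norm_num)
    h5.1 h5.2 19 2 _ (by norm_num) (by norm_num) c19
  have h7 := step (2 ^ 4 * 3 ^ 3 * 5 ^ 2 * 7 ^ 2 * 11 ^ 2 * 13 ^ 2 * 17 ^ 2 * 19 ^ 2) _ _
    (by norm_num) h6.1 h6.2 23 2 _ (by norm_num) (by norm_num) c23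
  exact h7

/-- The equation `a x ^ n - b y ^ m = c` has no solution in integers `x, y` and exponents
`m, n ≥ 2`. -/
def NoSolution (a b c : ℕ) : Prop :=
  ∀ (x y : ℤ) (m n : ℕ), 2 ≤ m → 2 ≤ n → (a : ℤ) * x ^ n - (b : ℤ) * y ^ m ≠ (c : ℤ)

theorem noSol_of_not (t : ℕ × ℕ × ℕ) (h : ¬ AllFree t) : NoSolution t.1 t.2.1 t.2.2 := by
  have aux : ∀ p k, p.Prime → ¬ Free p k t → NoSolution t.1 t.2.1 t.2.2 := by
    intro p k hp hf
    unfold Free at hf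
    rw [not_not] at hf
    exact no_sol p k _ _ _ hp hf
  by_contra hn
  apply h
  have f : ∀ p k, p.Prime → Free p k t := by
    intro p k hp
    by_contra hf
    exact hn (aux p k hp hf)
  exact ⟨⟨⟨⟨⟨⟨⟨⟨f 2 4 (by norm_num), f 3 3 (by norm_num)⟩, f 5 2 (by norm_num)⟩,
    f 7 2 (by norm_num)⟩, f 11 2 (by norm_num)⟩, f 13 2 (by norm_num)⟩, f 17 2 (by norm_num)⟩,
    f 19 2 (by norm_num)⟩, f 23 2 (by norm_num)⟩

theorem main (N : ℕ) (hN : 3000 * 597245143738042800 ≤ N) :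
    9 * N ^ 3 < 25 * {t : ℕ × ℕ × ℕ | (1 ≤ t.1 ∧ t.1 ≤ N) ∧ (1 ≤ t.2.1 ∧ t.2.1 ≤ N) ∧
      (1 ≤ t.2.2 ∧ t.2.2 ≤ N) ∧ NoSolution t.1 t.2.1 t.2.2}.ncard := by
  classical
  set M : ℕ := 597245143738042800 with hM
  have hMe : M = 2 ^ 4 * 3 ^ 3 * 5 ^ 2 * 7 ^ 2 * 11 ^ 2 * 13 ^ 2 * 17 ^ 2 * 19 ^ 2 * 23 ^ 2 := by
    norm_num [hM]
  set B : Finset (ℕ × ℕ × ℕ) := Icc 1 N ×ˢ Icc 1 N ×ˢ Icc 1 N with hB
  have hBc : B.card = N ^ 3 := by
    simp only [hB, Finset.card_product, Nat.card_Icc]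
    simp only [Nat.add_sub_cancel]
    ring
  have h1 : (B.filter AllFree).card ≤ (N / M + 1) ^ 3 * ((cube M).filter AllFree).card := by
    apply block M N (by norm_num [hM]) AllFree
    intro t ht
    apply all_free.1 M t _ ht
    rw [hMe]
  have h2 : ((cube M).filter AllFree).card ≤ 3219 * 17497 * 14961 * 115081 * 1756041 * 4796689 *
      24050241 * 46910089 * 147745929 := by
    rw [hMe]
    exact all_free.2
  set U : ℕ := 3219 * 17497 * 14961 * 115081 * 1756041 * 4796689 *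
      24050241 * 46910089 * 147745929 with hU
  have h3 : 3000 * (M * (N / M + 1)) ≤ 3001 * N := by
    have := Nat.mul_div_le N M
    nlinarith
  have h4 : (3000 * M) ^ 3 * (25 * ((N / M + 1) ^ 3 * U)) ≤ 25 * U * (3001 * N) ^ 3 := by
    calc _ = 25 * U * (3000 * (M * (N / M + 1))) ^ 3 := by ring
      _ ≤ _ := Nat.mul_le_mul_left _ (Nat.pow_le_pow_left h3 3)
  have h5 : 25 * U * 3001 ^ 3 < 16 * (3000 * M) ^ 3 := by norm_num [hU, hM]
  have hN0 : 0 < N := lt_of_lt_of_le (by norm_num [hM]) hN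
  have h6 : (3000 * M) ^ 3 * (25 * ((N / M + 1) ^ 3 * U)) < (3000 * M) ^ 3 * (16 * N ^ 3) := by
    calc _ ≤ 25 * U * (3001 * N) ^ 3 := h4
      _ = (25 * U * 3001 ^ 3) * N ^ 3 := by ring
      _ < (16 * (3000 * M) ^ 3) * N ^ 3 := Nat.mul_lt_mul_of_pos_right h5 (pow_pos hN0 3)
      _ = _ := by ring
  have h7 : 25 * ((N / M + 1) ^ 3 * U) < 16 * N ^ 3 := lt_of_mul_lt_mul_left' h6
  have h8 : 25 * (B.filter AllFree).card < 16 * N ^ 3 := by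
    calc _ ≤ 25 * ((N / M + 1) ^ 3 * U) := by
          apply Nat.mul_le_mul_left
          exact h1.trans (Nat.mul_le_mul_left _ h2)
      _ < _ := h7
  have h9 : (B.filter AllFree).card + (B.filter (fun t => ¬ AllFree t)).card = N ^ 3 := by
    rw [← hBc]
    exact Finset.card_filter_add_card_filter_not _
  have h10 : (B.filter (fun t => ¬ AllFree t)).card ≤
      {t : ℕ × ℕ × ℕ | (1 ≤ t.1 ∧ t.1 ≤ N) ∧ (1 ≤ t.2.1 ∧ t.2.1 ≤ N) ∧
      (1 ≤ t.2.2 ∧ t.2.2 ≤ N) ∧ NoSolution t.1 t.2.1 t.2.2}.ncard := by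
    rw [← Set.ncard_coe_finset]
    apply Set.ncard_le_ncard
    · intro t ht
      rw [Finset.mem_coe, Finset.mem_filter, hB, Finset.mem_product, Finset.mem_product,
        Finset.mem_Icc, Finset.mem_Icc, Finset.mem_Icc] at ht
      exact ⟨ht.1.1, ht.1.2.1, ht.1.2.2, noSol_of_not t ht.2⟩
    · apply Set.Finite.subset (Finset.finite_toSet B)
      intro t ht
      rw [Finset.mem_coe, hB, Finset.mem_product, Finset.mem_product,
        Finset.mem_Icc, Finset.mem_Icc, Finset.mem_Icc]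
      exact ⟨ht.1, ht.2.1, ht.2.2.1⟩
  omega

end Pool.Agent.helper74.PL
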