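import Mathlib

namespace Pool.Agent.helper74.PL

open Finset

/-- The number of `i` with `1 ≤ i ≤ k` and `p ^ i ∣ a`: the `p`-adic valuation of `a`, cut off
at `k`. -/
def val (p k a : ℕ) : ℕ := ((Finset.Icc 1 k).filter (fun i => p ^ i ∣ a)).card

/-- The blocking relation between the valuations of `a`, `b` and `c`. -/
def Blk (i j l : ℕ) : Prop := (l < i ∧ l < j) ∨ (l < i ∧ j + 1 = l) ∨ (l < j ∧ i + 1 = l)

instance (i j l : ℕ) : Decidable (Blk i j l) := by unfold Blk; infer_instance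

theorem val_le (p k a : ℕ) : val p k a ≤ k := by
  unfold val
  calc _ ≤ (Finset.Icc 1 k).card := Finset.card_filter_le _ _
    _ = k := by simp

theorem le_val_of_dvd (p k a i : ℕ) (hi : i ≤ k) (h : p ^ i ∣ a) : i ≤ val p k a := by
  unfold val
  calc i = (Finset.Icc 1 i).card := by simp
    _ ≤ _ := by
      apply Finset.card_le_card
      intro t ht
      rw [Finset.mem_Icc] at ht
      rw [Finset.mem_filter, Finset.mem_Icc]
      exact ⟨⟨ht.1, ht.2.trans hi⟩, (pow_dvd_pow p ht.2).trans h⟩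

theorem dvd_of_le_val (p k a i : ℕ) (h : i ≤ val p k a) : p ^ i ∣ a := by
  by_contra hn
  rcases Nat.eq_zero_or_pos i with rfl | hi
  · exact hn (by simp)
  have : val p k a ≤ i - 1 := by
    unfold val
    calc _ ≤ (Finset.Icc 1 (i - 1)).card := by
          apply Finset.card_le_card
          intro t ht
          rw [Finset.mem_filter, Finset.mem_Icc] at ht
          rw [Finset.mem_Icc]
          refine ⟨ht.1.1, ?_⟩
          by_contra hlt
          exact hn ((pow_dvd_pow p (by omega : i ≤ t)).trans ht.2)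
      _ = i - 1 := by simp
  omega

theorem val_mod (p k a : ℕ) : val p k (a % p ^ k) = val p k a := by
  unfold val
  congr 1
  apply Finset.filter_congr
  intro i hi
  rw [Finset.mem_Icc] at hi
  exact Nat.dvd_mod_iff (pow_dvd_pow p hi.2)

/-- A blocked triple gives an equation without solutions. -/
theorem no_sol (p k a b c : ℕ) (hp : p.Prime) (h : Blk (val p k a) (val p k b) (val p k c)) :
    ∀ (x y : ℤ) (m n : ℕ), 2 ≤ m → 2 ≤ n → (a : ℤ) * x ^ n - (b : ℤ) * y ^ m ≠ (c : ℤ) := by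
  intro x y m n hm hn heq
  have key : ∀ (u v w : ℕ) (X Y : ℤ) (r s : ℕ) (e f : ℤ), 2 ≤ s → 
      (u : ℤ) * X ^ r * e + (v : ℤ) * Y ^ s * f = (w : ℤ) → e ^ 2 = 1 → f ^ 2 = 1 →
      val p k w < val p k u → val p k v + 1 = val p k w → False := by
    intro u v w X Y r s e f hs hE he hf h1 h2
    obtain ⟨j, hj⟩ : ∃ j, j = val p k v := ⟨_, rfl⟩
    rw [← hj] at h2
    have hk := val_le p k u
    have hu : p ^ (j + 2) ∣ u := dvd_of_le_val p k u (j + 2) (by omega)
    have hw : p ^ (j + 1) ∣ w := dvd_of_le_val p k w (j + 1) (by omega)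
    have hw2 : ¬ p ^ (j + 2) ∣ w := by
      intro hd
      have := le_val_of_dvd p k w (j + 2) (by omega) hd
      omega
    have hv : p ^ j ∣ v := dvd_of_le_val p k v j (by omega)
    have hv2 : ¬ p ^ (j + 1) ∣ v := by
      intro hd
      have := le_val_of_dvd p k v (j + 1) (by omega) hd
      omega
    obtain ⟨v', rfl⟩ := hv
    have hv' : ¬ p ∣ v' := by
      intro hd
      apply hv2
      rw [pow_succ]
      exact Nat.mul_dvd_mul_left _ hd
    have hpz : Prime (p : ℤ) := Nat.prime_iff_prime_int.mp hp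
    have huz : (p : ℤ) ^ (j + 2) ∣ (u : ℤ) := by exact_mod_cast hu
    have hwz : (p : ℤ) ^ (j + 1) ∣ (w : ℤ) := by exact_mod_cast hw
    have hw2z : ¬ (p : ℤ) ^ (j + 2) ∣ (w : ℤ) := by exact_mod_cast hw2
    have hv'z : ¬ (p : ℤ) ∣ (v' : ℤ) := by exact_mod_cast hv'
    have hfu : IsUnit f := by
      rw [pow_two] at hf
      exact IsUnit.of_mul_eq_one f hf
    have h3 : (p : ℤ) ^ (j + 1) ∣ ((p ^ j * v' : ℕ) : ℤ) * Y ^ s * f := by
      have e1 : ((p ^ j * v' : ℕ) : ℤ) * Y ^ s * f = (w : ℤ) - (u : ℤ) * X ^ r * e := by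
        linarith
      rw [e1]
      exact dvd_sub hwz (Dvd.dvd.mul_right (Dvd.dvd.mul_right
        ((pow_dvd_pow _ (by omega)).trans huz) _) _)
    have h4 : (p : ℤ) ∣ (v' : ℤ) * Y ^ s * f := by
      have e2 : ((p ^ j * v' : ℕ) : ℤ) * Y ^ s * f = (p : ℤ) ^ j * ((v' : ℤ) * Y ^ s * f) := by
        push_cast; ring
      rw [e2, pow_succ] at h3
      exact (mul_dvd_mul_iff_left (pow_ne_zero _ hpz.ne_zero)).mp h3
    have h5 : (p : ℤ) ∣ Y := by
      rcases hpz.dvd_or_dvd h4 with h | h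
      · rcases hpz.dvd_or_dvd h with h | h
        · exact absurd h hv'z
        · exact hpz.dvd_of_dvd_pow h
      · exact absurd (isUnit_of_dvd_unit h hfu) hpz.not_unit
    have h6 : (p : ℤ) ^ 2 ∣ Y ^ s := (pow_dvd_pow_of_dvd h5 2).trans (pow_dvd_pow _ hs)
    apply hw2z
    rw [← hE]
    apply dvd_add
    · exact Dvd.dvd.mul_right (Dvd.dvd.mul_right huz _) _
    · apply Dvd.dvd.mul_right
      rw [pow_add]
      push_cast
      exact mul_dvd_mul (Dvd.intro _ rfl) h6
  rcases h with ⟨h1, h2⟩ | ⟨h1, h2⟩ | ⟨h1, h2⟩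
  · have hk := val_le p k a
    have ha : p ^ (val p k c + 1) ∣ a := dvd_of_le_val p k a _ (by omega)
    have hb : p ^ (val p k c + 1) ∣ b := dvd_of_le_val p k b _ (by omega)
    have haz : (p : ℤ) ^ (val p k c + 1) ∣ (a : ℤ) := by exact_mod_cast ha
    have hbz : (p : ℤ) ^ (val p k c + 1) ∣ (b : ℤ) := by exact_mod_cast hb
    have hcz : (p : ℤ) ^ (val p k c + 1) ∣ (c : ℤ) := by
      rw [← heq]
      exact dvd_sub (Dvd.dvd.mul_right haz _) (Dvd.dvd.mul_right hbz _)
    have hc : p ^ (val p k c + 1) ∣ c := by exact_mod_cast hcz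
    have := le_val_of_dvd p k c _ (by omega) hc
    omega
  · exact key a b c x y n m 1 (-1) hm (by linarith) (by norm_num) (by norm_num) h1 h2
  · exact key b a c y x m n (-1) 1 hn (by linarith) (by norm_num) (by norm_num) h1 h2

end Pool.Agent.helper74.PL
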